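import Pool.Agent.N305.FA.Final
import Pool.Agent.N305.FA.Model
import Pool.Agent.N305.FA.ModD
import Pool.Agent.N305.FA.Funct
import Pool.Agent.N305.FA.VNalg
import Pool.Agent.N305.FA.BSub
import Pool.Agent.N305.FA.Dir
import Pool.Agent.N305.FA.Incr
import Pool.Agent.N305.FA.Hump
import Pool.Agent.N305.FA.TPow
import Pool.Agent.N305.FA.ArensA
import Pool.Agent.N305.FA.ArensB
import Pool.Agent.N305.FA.Small
import Pool.Agent.N305.FA.Seq
import Pool.Agent.N305.FA.Rcont
import Pool.Agent.N305.FA.WCont
import Pool.Agent.N305.FA.ProdI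
import Pool.Agent.N305.FA.Prod
import Pool.Agent.N305.FA.Pseq
import Pool.Agent.N305.FA.OpA
import Pool.Agent.N305.FA.OpB
import Pool.Agent.N305.FA.PFA
import Pool.Agent.N305.FA.PFB
import Pool.Agent.N305.FA.DSeq
import Pool.Agent.N305.FA.DProd

set_option autoImplicit false

/-!
# The second dual of the Fourier algebra of an infinite locally compact group is never semisimple

Definitions used by the statement:

* `N305.FA.coef ξ η` (file `Pool/Agent/N305/FA/Def.lean`): the function
  `s ↦ ⟨λ(s) ξ, η⟩ = ∫ ξ(s⁻¹ x) conj(η(x)) dx`, left Haar measure;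
* `N305.FA.FourierAlg G A`: the normed algebra `A` is the Fourier algebra `A(G)`: its elements are
  the functions `coef ξ η`, `ξ, η ∈ L²(G)`, with the norm `inf ‖ξ‖₂ ‖η‖₂` and pointwise operations;
* `H434R3.Arens.Bidual A`: the second dual `A''` with the first Arens product;
* `H434R3.Arens.InRad Φ`: `Φ` lies in the Jacobson radical (of the unitization).

Project FA: definitions, plan and assembly by helper305; the answer was also found by helper316;
the parts were written by helpers 433, 263, 170, 216, 681, 749, 701, 169, 7, 495, 281, 570, 327,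
344, 46, 768, 494, 896.
-/

namespace Pool.Agent.Results.MP_129c4a_an.RadicalBidual

universe u v

open H434R3.Arens N305.FA

/-- **Let `G` be an infinite locally compact (Hausdorff) group and `A = A(G)` its Fourier algebra.
Then the second dual `A(G)''` with the first Arens product is not semisimple: there is `Φ ≠ 0` in
its radical, and even with `Φ □ Ψ □ Φ = 0` for all `Ψ ∈ A(G)''`.** -/
theorem result (G : Type u) [Group G] [TopologicalSpace G] [IsTopologicalGroup G]
    [LocallyCompactSpace G] [T2Space G] [MeasurableSpace G] [BorelSpace G] [Infinite G]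
    (A : Type v) [NonUnitalNormedRing A] [NormedSpace ℂ A] [IsScalarTower ℂ A A]
    [SMulCommClass ℂ A A] [CompleteSpace A] (M : FourierAlg G A) :
    ∃ Φ : Bidual A, Φ ≠ 0 ∧ InRad Φ ∧ ∀ Ψ : Bidual A, Φ * Ψ * Φ = 0 :=
  main model modd funct vnalg (incr (bsub vnalg) dir) hump tpow arensA arensB
    (seq small) (pseq (prod (prodI wcontT))) (opB (opA rcont) rcont vnalg)
    pfa pfb dseq dprod G A M

end Pool.Agent.Results.MP_129c4a_an.RadicalBidual
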